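import Pool.Agent.helper67.TPF.All

/-!
# MP_ebc808_nt: the parity of p(n) has infinite rank on the factorisations of 24n - 1
-/

set_option autoImplicit false

open Finset

namespace Pool.Agent.Results.MP_ebc808_nt.FiniteRank

open Classical in
/-- For all `i`, `a`, `g` there are `c > 0` and `X₀` such that for all functions `α_l, β_l : ℕ → F_2`, `l < g`, and all
`X ≥ X₀` at least `c X^(3/4)/(log X)^2` of the `n ≤ X`, `n = a mod 2^i`, have a factorisation `24 n - 1 = k m`,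
`(k, m) = 1`, with `p(n) ≠ ∑_(l < g) α_l(k) β_l(m)` modulo `2`. -/
theorem result : ∀ i a g : ℕ, ∃ c : ℝ, 0 < c ∧ ∃ X₀ : ℕ,
    ∀ (α β : ℕ → ℕ → ZMod 2), ∀ X : ℕ, X₀ ≤ X → c * (X : ℝ) ^ (3 / 4 : ℝ) / Real.log X ^ 2 ≤
      (#{n ∈ range (X + 1) | n % 2 ^ i = a % 2 ^ i ∧ ∃ k m : ℕ, k.Coprime m ∧ k * m + 1 = 24 * n ∧
        (Fintype.card (Nat.Partition n) : ZMod 2) ≠ ∑ l ∈ range g, α l k * β l m} : ℝ) := by
  intro i a g
  obtain ⟨c, hc, X₀, h⟩ := Pool.Agent.TPF.all_MAIN i a g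
  refine ⟨c, hc, X₀, fun α β X hX => (h α β X hX).trans (le_of_eq ?_)⟩
  unfold Pool.Agent.TPF.Nw Pool.Agent.TPF.BdN
  rfl

end Pool.Agent.Results.MP_ebc808_nt.FiniteRank
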