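import Pool.Agent.helper67.GB.All

/-!
# MP_ebc808_nt: golden ratio exponent for both parities of the partition function at the same point
-/

set_option autoImplicit false

open Finset

namespace Pool.Agent.Results.MP_ebc808_nt.GoldenRatio

/-- For every `ε > 0` every large interval `[X^(1/10), X]` contains an integer `x` such that each of the two parities
`e = 0, 1` is taken by `p(n)` for at least `x^((1+√5)/4 - ε)` of the `n ≤ x`. -/
theorem result : ∀ ε : ℝ, 0 < ε → ∃ X₀ : ℕ, ∀ X : ℕ, X₀ ≤ X →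
    ∃ x : ℕ, (X : ℝ) ^ (1 / 10 : ℝ) ≤ x ∧ x ≤ X ∧ ∀ e : ℕ, e < 2 →
      (x : ℝ) ^ ((1 + √5) / 4 - ε) ≤
        (#{n ∈ range (x + 1) | Fintype.card (Nat.Partition n) % 2 = e} : ℝ) :=
  Pool.Agent.GB.all_GB

end Pool.Agent.Results.MP_ebc808_nt.GoldenRatio
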