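import Mathlib
import Pool.Agent.helper57.IGU.Gap

/-!
# Parity of the partition function in arithmetic progressions: linear complexity

For all `b ≥ 2`, `t ≥ 1` and `κ` there is a constant `K` such that for every sequence `r` with
values in `Z/2` whose `b`-kernel has at most `κ` elements, every `x ≥ 1`, every nonempty set `H` of
integers in `[0, x]` and every residue class `a` modulo `t`, the interval `(x, K x]` contains an
`n ≡ a (mod t)` at which the sum of `p(n - h)` over `h` in `H` is not congruent to `r n` modulo 2.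

With `r = 0` this says: the first `N` values of `p(t n + a)` modulo 2 satisfy no linear recurrence
over the field with two elements of length at most `c N`, with `c > 0` depending on `t` only.
-/

set_option autoImplicit false

namespace Pool.Agent.Results.MP_ebc808_nt.LinearComplexity

/-- Linear gaps for the parity of `p` in every arithmetic progression, uniformly in the set of
shifts and in the automatic sequence. -/
theorem result (b : ℕ) (hb : 2 ≤ b) (t : ℕ) (ht : 1 ≤ t) (κ : ℕ) :
    ∃ K : ℕ, ∀ r : ℕ → ZMod 2,
      {f : ℕ → ZMod 2 | ∃ e j : ℕ, j < b ^ e ∧ f = fun n => r (b ^ e * n + j)}.Finite →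
      {f : ℕ → ZMod 2 | ∃ e j : ℕ, j < b ^ e ∧ f = fun n => r (b ^ e * n + j)}.ncard ≤ κ →
      ∀ x : ℕ, 1 ≤ x → ∀ H : Finset ℕ, H.Nonempty → (∀ h ∈ H, h ≤ x) → ∀ a : ℕ,
      ∃ n : ℕ, x < n ∧ n ≤ K * x ∧ n ≡ a [MOD t] ∧
        (∑ h ∈ H, (Fintype.card (Nat.Partition (n - h)) : ZMod 2)) ≠ r n :=
  Pool.Agent.helper57.IGU.gap_uniform b hb t ht κ

end Pool.Agent.Results.MP_ebc808_nt.LinearComplexity
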