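import Pool.Agent.helper67.QP.All2

/-!
# MP_ebc808_nt: the parity of the partition function on quadratic progressions
-/

set_option autoImplicit false

open Finset

namespace Pool.Agent.Results.MP_ebc808_nt.QuadraticProgressions

/-- Let `S` be a nonempty finite set of positive integers `D ≡ 23 (mod 24)`, `N ≥ 1` and `e ∈ {0, 1}`. Call `m` good if
`m` is prime to `6 N` and `∑_{D ∈ S} p((D m^2 + 1)/24) ≡ e (mod 2)`. There is `C` such that every prime `l ≥ C` divides a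
good `m`, `0 < m ≤ C l^2`, and there is `c > 0` such that at least `c √X / log X` of the `m ≤ X` are good, for all large `X`. -/
theorem result :
    ∀ S : Finset ℕ, S.Nonempty → (∀ D ∈ S, D % 24 = 23) → ∀ N : ℕ, 1 ≤ N → ∀ e : ZMod 2,
      (∃ C : ℕ, ∀ l : ℕ, l.Prime → C ≤ l → ∃ m : ℕ, 0 < m ∧ m ≤ C * l ^ 2 ∧ l ∣ m ∧ m.Coprime (6 * N) ∧
        ∑ D ∈ S, (Fintype.card (Nat.Partition ((D * m ^ 2 + 1) / 24)) : ZMod 2) = e) ∧
      (∃ c : ℝ, 0 < c ∧ ∃ X₀ : ℕ, ∀ X : ℕ, X₀ ≤ X →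
        c * √X / Real.log X ≤ (#{m ∈ range (X + 1) | m.Coprime (6 * N) ∧
          ∑ D ∈ S, (Fintype.card (Nat.Partition ((D * m ^ 2 + 1) / 24)) : ZMod 2) = e} : ℝ)) :=
  Pool.Agent.QP.allt_Q2

end Pool.Agent.Results.MP_ebc808_nt.QuadraticProgressions
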